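import Pool.Agent.H44B.A7

/-!
# MP_fcb754_nt, the expected bound fails for `w = (1, α)` with `α` a Liouville number

For every positive Liouville number `α` the Barnes double zeta function `ζ_2(s, 1, (1, α))` (here
`r = 2`, `d = 2`, so that the threshold `r - d / 2` is `1`) exceeds every multiple of `t ^ e`, for
every `e < 1 / 2`, on the line `Re s = 1`.
-/

set_option autoImplicit false

open Complex

namespace Pool.Agent.Results.MP_fcb754_nt.LiouvilleWeights

/-- `F` is the continuation of the Barnes zeta function `ζ_r(s, a, w)`: holomorphic off the points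
`1, …, r`, and given by the series for `Re s > r`. -/
def IsBarnesZeta (r : ℕ) (a : ℝ) (w : Fin r → ℝ) (F : ℂ → ℂ) : Prop :=
  DifferentiableOn ℂ F {s : ℂ | ∀ k : ℕ, 1 ≤ k → k ≤ r → s ≠ (k : ℂ)} ∧
  ∀ s : ℂ, (r : ℝ) < s.re →
    F s = ∑' m : Fin r → ℕ, (((a + ∑ j, (m j : ℝ) * w j : ℝ) : ℂ) ^ (-s))

theorem unique {r : ℕ} {a : ℝ} {w : Fin r → ℝ} {F G : ℂ → ℂ} (hF : IsBarnesZeta r a w F)
    (hG : IsBarnesZeta r a w G) {s : ℂ} (hs : ∀ k : ℕ, 1 ≤ k → k ≤ r → s ≠ (k : ℂ)) :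
    F s = G s := by
  set U : Set ℂ := {s : ℂ | ∀ k : ℕ, 1 ≤ k → k ≤ r → s ≠ (k : ℂ)} with hU
  have hfin : Uᶜ.Finite := by
    apply Set.Finite.subset ((Finset.Icc 1 r).image (fun k : ℕ => (k : ℂ))).finite_toSet
    intro z hz
    obtain ⟨k, hk⟩ := not_forall.mp hz
    obtain ⟨h1, hk⟩ := Classical.not_imp.mp hk
    obtain ⟨h2, hk⟩ := Classical.not_imp.mp hk
    have h3 : z = (k : ℂ) := not_not.mp hk
    simp only [Finset.coe_image, Set.mem_image, Finset.mem_coe, Finset.mem_Icc]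
    exact ⟨k, ⟨h1, h2⟩, h3.symm⟩
  have hopen : IsOpen U := by
    have := hfin.isClosed.isOpen_compl
    rwa [compl_compl] at this
  have hconn : IsPreconnected U := by
    have h : IsConnected (Uᶜ)ᶜ := by
      apply (Set.Countable.isPathConnected_compl_of_one_lt_rank (E := ℂ) _ hfin.countable).isConnected
      rw [Complex.rank_real_complex]
      norm_num
    rw [compl_compl] at h
    exact h.isPreconnected
  have hFa : AnalyticOnNhd ℂ F U := hF.1.analyticOnNhd hopen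
  have hGa : AnalyticOnNhd ℂ G U := hG.1.analyticOnNhd hopen
  have hz : ((r + 1 : ℝ) : ℂ) ∈ U := by
    intro k h1 h2 h3
    have h4 : (r + 1 : ℝ) = k := by exact_mod_cast h3
    have h5 : (k : ℝ) ≤ r := by exact_mod_cast h2
    linarith
  have heq : F =ᶠ[nhds ((r + 1 : ℝ) : ℂ)] G := by
    have hop : IsOpen {z : ℂ | (r : ℝ) < z.re} := isOpen_lt continuous_const Complex.continuous_re
    have hmem : ((r + 1 : ℝ) : ℂ) ∈ {z : ℂ | (r : ℝ) < z.re} := by simp
    filter_upwards [hop.mem_nhds hmem] with z hz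
    rw [hF.2 z hz, hG.2 z hz]
  exact hFa.eqOn_of_preconnected_of_eventuallyEq hGa hconn hz heq hs

/-- For every positive Liouville number `α` the function `ζ_2(s, 1, (1, α))` exists (`d = 2`, the
threshold is `2 - 2 / 2 = 1`), and for no `e < 1 / 2` is it `O(t ^ e)` on `Re s = 1`. -/
theorem result (α : ℝ) (hα : 0 < α) (hL : Liouville α) :
    Module.finrank ℚ (Submodule.span ℚ (Set.range (![1, α] : Fin 2 → ℝ))) = 2 ∧
    (∃ F : ℂ → ℂ, IsBarnesZeta 2 1 ![1, α] F) ∧
    ∀ F : ℂ → ℂ, IsBarnesZeta 2 1 ![1, α] F →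
      ∀ e : ℝ, e < 1 / 2 → ∀ C : ℝ, ∃ t : ℝ, 2 ≤ t ∧ C * t ^ e < ‖F (1 + t * I)‖ := by
  obtain ⟨F, hF1, hF2, hF3⟩ := Pool.Agent.H44B.disproof hα hL
  have hF : IsBarnesZeta 2 1 ![1, α] F := ⟨hF1, fun s hs => hF2 s (by exact_mod_cast hs)⟩
  refine ⟨Pool.Agent.H27.finrank_span_pair hL.irrational, ⟨F, hF⟩, ?_⟩
  intro G hG e he C
  by_contra hcon
  push Not at hcon
  apply hF3 (max e 0) (le_max_right _ _) (max_lt he (by norm_num))
  have hmem : ∀ t : ℝ, 1 ≤ t → ∀ k : ℕ, 1 ≤ k → k ≤ 2 → (1 + t * I : ℂ) ≠ (k : ℂ) := by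
    intro t ht k _ _ h
    have := congrArg Complex.im h
    simp at this
    linarith
  -- on `[1, 2]` the function is bounded
  have hcont : ContinuousOn (fun t : ℝ => F (1 + t * I)) (Set.Icc 1 2) := by
    apply hF1.continuousOn.comp (by fun_prop)
    intro t ht
    exact hmem t ht.1
  obtain ⟨B, hB⟩ := (isCompact_Icc.image_of_continuousOn hcont).isBounded.exists_norm_le
  refine ⟨max C (max B 0), fun t ht => ?_⟩
  have hpow : (1 : ℝ) ≤ t ^ (max e 0) := Real.one_le_rpow ht (le_max_right _ _)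
  rcases le_or_gt t 2 with h2 | h2
  · have h3 : ‖F (1 + t * I)‖ ≤ B := hB _ ⟨t, ⟨ht, h2⟩, rfl⟩
    have h4 : B ≤ max C (max B 0) := (le_max_left _ _).trans (le_max_right _ _)
    have h5 : 0 ≤ max C (max B 0) := (le_max_right B 0).trans (le_max_right _ _)
    nlinarith
  · have h3 := hcon t h2.le
    rw [unique hG hF (hmem t ht)] at h3
    refine h3.trans ?_
    have h4 : C ≤ max C (max B 0) := le_max_left _ _
    have h5 : 0 ≤ max C (max B 0) := (le_max_right B 0).trans (le_max_right _ _)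
    have h6 : t ^ e ≤ t ^ (max e 0) := Real.rpow_le_rpow_of_exponent_le ht (le_max_left _ _)
    have h7 : 0 ≤ t ^ e := Real.rpow_nonneg (by linarith) _
    calc C * t ^ e ≤ max C (max B 0) * t ^ e := mul_le_mul_of_nonneg_right h4 h7
      _ ≤ max C (max B 0) * t ^ (max e 0) := mul_le_mul_of_nonneg_left h6 h5

end Pool.Agent.Results.MP_fcb754_nt.LiouvilleWeights
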